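import Mathlib
import Pool.Agent.Lib.helper12.GWB

set_option autoImplicit false

namespace Pool.Agent.Results.MP_c15531_pr.Full
open Pool.Agent.Lib.helper12.GW MeasureTheory Filter Set Finsupp
open scoped ENNReal

lemma ne (x : ℤ) : single (x + 1) 2 ≠ single (x - 1) 1 := by
  simp [single_eq_single_iff]

noncomputable def μ (x : ℤ) : PMF (ℤ →₀ ℕ) := PMF.ofFinset
  (fun f => if f = single (x - 1) 1 then 1 / 16 else if f = single (x + 1) 2 then 15 / 16 else 0)
  {single (x - 1) 1, single (x + 1) 2} (by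
    rw [Finset.sum_pair (ne x).symm, if_pos rfl, if_neg (ne x), if_pos rfl, ENNReal.div_add_div_same,
      ENNReal.div_eq_one_iff] <;> norm_num) (by simp +contextual)

lemma G_eq (s : ℤ → ℝ) (x : ℤ) : G μ s x = 1 / 16 * s (x - 1) + 15 / 16 * s (x + 1) ^ 2 := by
  rw [G, tsum_eq_sum (s := {single (x - 1) 1, single (x + 1) 2}) (by simp +contextual [μ]),
    Finset.sum_pair (ne x).symm]
  simp [μ, ne x]

lemma bdd {A : Set ℤ} {a : ℤ} (h : A ⊆ Iic a) (x : ℤ) : ∀ᵐ ω ∂P μ x, ω ∈ Ex A x := by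
  have k : ∀ n x, 1 - (23 / 32) ^ n * (4 : ℝ) ^ (a - x) ≤ (P μ x).real (No A n x) := fun n => by
    induction n with
    | zero =>
      intro x
      by_cases e : x ≤ a
      · linarith [one_le_zpow₀ (a := (4 : ℝ)) (by norm_num) (sub_nonneg.2 e),
          measureReal_nonneg (μ := P μ x) (s := No A 0 x)]
      · rw [show No _ 0 x = univ from eq_univ_of_forall fun ω w b _ c => e (by
          simpa [List.length_eq_zero_iff.1 b, ty] using h c), probReal_univ]
        simp [zpow_nonneg]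
    | succ n ih =>
      intro x
      have a1 := ih (x - 1)
      have a2 := ih (x + 1)
      rw [show a - (x - 1) = a - x + 1 by ring, zpow_add_one₀ (by norm_num)] at a1
      rw [← sub_sub, zpow_sub_one₀ (by norm_num)] at a2
      rw [no_succ, dec (m_No _ n), G_eq, pow_succ]
      nlinarith [sq_nonneg ((P μ (x + 1)).real (No A n (x + 1)) - 1)]
  have s := ((summable_geometric_of_lt_one (r := 23 / 32) (by norm_num) (by norm_num)).mul_right
    ((4 : ℝ) ^ (a - x))).tsum_ofReal_ne_top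
  refine (ae_eventually_notMem (s := fun n => (No A n x)ᶜ) (ne_top_of_le_ne_top s
    (ENNReal.tsum_le_tsum fun n => ?_))).mono fun ω h => by simpa [Ex] using h
  rw [ENNReal.le_ofReal_iff_toReal_le (measure_ne_top _ _) (by positivity), ← Measure.real,
    probReal_compl_eq_one_sub (m_No _ _ _)]
  linarith [k n x]

def Good (x : ℤ) (ω : Om ℤ) : Prop :=
  ∀ w, ω w = single (ty x w - 1) 1 ∨ ω w = single (ty x w + 1) 2

lemma good (x : ℤ) : ∀ᵐ ω ∂P μ x, Good x ω := ae_all_iff.2 fun w => by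
  refine ae_of_ae_map (f := fun ω : Om ℤ => ω w) (measurable_pi_apply w).aemeasurable
    (p := fun f => f = single (ty x w - 1) 1 ∨ f = single (ty x w + 1) 2) ?_
  rw [P, Measure.infinitePi_map_eval, ae_iff,
    PMF.toMeasure_apply_eq_zero_iff _ MeasurableSpace.measurableSet_top,
    disjoint_left]
  intro f a b
  simp only [mem_ofPred_eq, not_or] at b
  simp [μ, b] at a

lemma ex_alive (n : ℕ) : ∀ x ω, Good x ω → ∃ w : List (ℤ × ℕ), w.length = n ∧ alive w ω := by
  induction n with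
  | zero => exact fun _ _ _ => ⟨[], rfl, trivial⟩
  | succ n ih =>
    intro x ω h
    obtain ⟨y, e⟩ : ∃ y, 0 < ω [] y := by rcases h [] with e | e <;> exact ⟨_, by rw [e, single_eq_same]; simp⟩
    obtain ⟨w, a, b⟩ := ih y (sh (y, 0) ω) fun w => h ((y, 0) :: w)
    exact ⟨(y, 0) :: w, by simp [a], e, b⟩

lemma ivt (a : ℤ) : ∀ (w : List (ℤ × ℕ)) x ω, Good x ω → alive w ω → x ≤ a → a ≤ ty x w →
    ∃ v, alive v ω ∧ ty x v = a ∧ a - x ≤ v.length
  | [], x, _, _, _, h, k => ⟨[], trivial, le_antisymm h k, by simpa [ty] using k⟩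
  | b :: w, x, ω, g, l, h, k => by
    rcases h.eq_or_lt with rfl | h
    · exact ⟨[], trivial, rfl, by simp⟩
    have : b.1 ≤ x + 1 := by
      have := l.1
      rcases g [] with e | e <;> rw [e, single_apply] at this <;> split_ifs at this with c <;>
        simp only [ty] at c <;> omega
    obtain ⟨v, a1, a2, a3⟩ := ivt a w b.1 (sh b ω) (fun w => g (b :: w)) l.2 (by omega) k
    exact ⟨b :: v, ⟨l.1, a1⟩, a2, by simp; omega⟩

lemma q_eq (A : Set ℤ) : (BddAbove A → q μ A = 1) ∧ (¬ BddAbove A → q μ A = 0) := by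
  refine ⟨fun ⟨a, h⟩ => funext fun x => (ENNReal.toReal_eq_one_iff _).2
    ((mem_ae_iff_prob_eq_one (m_Ex _ x)).1 (bdd h x)), fun h => funext fun x => ?_⟩
  refine (measureReal_eq_zero_iff (measure_ne_top _ _)).2 (measure_eq_zero_iff_ae_notMem.2 ?_)
  filter_upwards [good x, ae_all_iff.2 fun a => bdd (A := Iic a) subset_rfl x] with ω g b c
  obtain ⟨N, hN⟩ := eventually_atTop.1 c
  obtain ⟨a, a1, a2⟩ := not_bddAbove_iff.1 h (x + N)
  obtain ⟨n, hn⟩ := (b a).exists
  obtain ⟨w, w1, w2⟩ := ex_alive n x ω g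
  obtain ⟨v, v1, v2, v3⟩ := ivt a w x ω g w2 (by omega) (not_le.1 (hn w w1 w2)).le
  exact hN _ (by omega) v rfl v1 (v2 ▸ a1)

theorem result : ∃ (X : Type) (_ : Countable X) (μ : X → PMF (X →₀ ℕ)), Infinite X ∧
    (∀ x y, Relation.TransGen (fun a b => ∃ f, μ a f ≠ 0 ∧ f b ≠ 0) x y) ∧
    (∀ x y, ∃ γ : X ≃ X, (∀ a f, μ (γ a) (equivMapDomain γ f) = μ a f) ∧ γ x = y) ∧
    (∀ x, q μ {x} = 1) ∧ (range (q μ)).Finite ∧ ¬ (S μ \ range (q μ)).Countable := by
  have f : (range (q μ)).Finite := (toFinite {0, 1}).subset (range_subset_iff.2 fun A => by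
    by_cases h : BddAbove A <;> simp [q_eq A, h])
  have u : ∀ x, ∃ f, μ x f ≠ 0 ∧ f (x + 1) ≠ 0 := fun x => ⟨single (x + 1) 2, by simp [μ, ne x], by simp⟩
  have d : ∀ x, ∃ f, μ x f ≠ 0 ∧ f (x - 1) ≠ 0 := fun x => ⟨single (x - 1) 1, by simp [μ], by simp⟩
  refine ⟨ℤ, inferInstance, μ, inferInstance, fun x y => ?_, fun x y => ⟨.addRight (y - x),
    fun a f => ?_, by simp⟩, fun x => (q_eq _).1 bddAbove_singleton, f, fun h => ?_⟩
  · induction y using Int.inductionOn' (b := x + 1) with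
    | zero => exact .single (u x)
    | succ k _ ih => exact ih.tail (u k)
    | pred k _ ih => exact ih.tail (d k)
  · have e : ∀ b n, equivMapDomain (Equiv.addRight (y - x)) f = single (b + (y - x)) n ↔
        f = single b n := fun b n => by
      rw [← (equivCongrLeft (Equiv.addRight (y - x))).injective.eq_iff (a := f)]
      simp [equivCongrLeft]
    simp only [μ, PMF.ofFinset_apply, Equiv.coe_addRight, add_sub_right_comm a, add_right_comm a (y - x), e]
  · have : qt μ = 1 := funext fun x => (ENNReal.toReal_eq_one_iff _).2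
      ((mem_ae_iff_prob_eq_one (.iInter fun _ => m_Ex _ x)).1 ((ae_all_iff.2 fun y =>
        bdd (a := y) (by simp) x).mono fun _ => mem_iInter.2))
    have c := between (μ := μ) (by rw [this, (q_eq _).2 not_bddAbove_univ]; exact zero_lt_one)
    exact absurd (c ▸ Cardinal.le_aleph0_iff_set_countable.2 ((h.union f.countable).mono
      fun s hs => (subset_sdiff_union _ _ hs.1))) Cardinal.aleph0_lt_continuum.not_ge

end Pool.Agent.Results.MP_c15531_pr.Full
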